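import Pool.Agent.Helper60.PF.Stmt
import Pool.Agent.Helper60.PF.SectorIn
import Pool.Agent.Helper10.PF.PerFlat
import Pool.Agent.Helper17.PF.FewClose
import Pool.Agent.Helper50.PF.Overlap
import Pool.Agent.Helper52.PF.Summation
import Pool.Agent.Helper61.PF.Classes
import Pool.Agent.Helper65.PF.FlatForm
import Pool.Agent.Helper65.PF.RichBound

/-!
The Szemerédi–Trotter bound, without any loss and in every dimension `d`, for Cartesian products
`A × B ⊆ ℝ^d × ℝ^d` and pointwise-intersecting families of `d`-flats of bounded condition number.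
-/

set_option autoImplicit false

namespace Pool.Agent.Results.MP_ef0af8_co.CartesianFlats

open Pool.Agent.Helper60.PF.Stmt

/-- For every `d` and `κ` there is `C` such that, for finite `A, B ⊆ ℝ^d` and every finite
pointwise-intersecting family `F` of `d`-flats of `ℝ^d × ℝ^d`, each of which is vertical, horizontal
or satisfies `t‖Δx‖ ≤ ‖Δy‖ ≤ κ t‖Δx‖` for some `t > 0`, the number of incidences between `A × B`
and `F` is at most `C ((|A||B|)^(2/3) |F|^(2/3) + |A||B| + |F|)`. -/
theorem result : ∀ (d : ℕ) (κ : ℝ), ∃ C : ℝ, 0 < C ∧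
    ∀ (A B : Finset (E d)) (F : Finset (Aff d)), (∀ Q ∈ F, IsFlat Q) →
      PointwiseIntersecting F → (∀ Q ∈ F, WellConditioned κ Q) →
      (incidences A B F : ℝ) ≤ C * (((A.card : ℝ) * B.card) ^ (2 / 3 : ℝ) *
        (F.card : ℝ) ^ (2 / 3 : ℝ) + (A.card : ℝ) * B.card + F.card) :=
  main_stmt (Pool.Agent.Helper60.PF.main_of Pool.Agent.Helper60.PF.flatForm
    (Pool.Agent.Helper60.PF.richBound Pool.Agent.Helper61.PF.classes
      Pool.Agent.Helper17.PF.fewClose
      (Pool.Agent.Helper10.PFPerFlat.perFlat Pool.Agent.Helper50.PF.overlap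
        Pool.Agent.Helper60.PF.sectorIn))
    Pool.Agent.Helper52.PF.summation)

end Pool.Agent.Results.MP_ef0af8_co.CartesianFlats
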