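import Pool.Agent.Helper6.FL.Stmt

/-!
The Szemerédi–Trotter bound, without any loss, for pointwise-intersecting families of `d`-flats of
`ℝ^(2d)` which are compatible with a flag of subspaces (for instance the lines `y = a x + b` over a
finite-dimensional commutative real algebra).
-/

set_option autoImplicit false

namespace Pool.Agent.Results.MP_ef0af8_co.FlagFlats

open Pool.Agent.Helper57.ZF.Stmt (Pt Aff IsFlat incidences)
open Pool.Agent.Helper6.FL.Stmt

/-- For `m₁, …, m_s ≥ 1` and `κ` there is `C` such that for every linear isomorphism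
`T : ℝ^(2d) → ∏ ℝ^(2 mᵢ)`, every finite `P` and every finite pointwise-intersecting family `F` of
`d`-flats which induce in every block `i` an `mᵢ`-dimensional space of directions, any two of these
being equal or having comparable principal angles, the number of incidences is at most
`C (|P|^(2/3) |F|^(2/3) + |P| + |F|)`. -/
theorem result : ∀ (d s : ℕ) (m : Fin s → ℕ) (κ : ℝ), (∀ i, 1 ≤ m i) → ∃ C : ℝ,
    ∀ (T : Iso d m) (P : Finset (Pt d)) (F : Finset (Aff d)),
    (∀ Q ∈ F, IsFlat Q) → PointwiseIntersecting F → Compatible κ T F →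
    (incidences P F : ℝ) ≤ C * ((P.card : ℝ) ^ (2 / 3 : ℝ) * (F.card : ℝ) ^ (2 / 3 : ℝ) +
      P.card + F.card) := main_stmt

end Pool.Agent.Results.MP_ef0af8_co.FlagFlats
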