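import Pool.Agent.Helper6.FG.Stmt

/-!
The Szemerédi–Trotter bound, without any loss and in every dimension, for points which form a
positive proportion of a grid and arbitrary pointwise-intersecting families of `d`-flats of
`ℝ^(2d)`.
-/

set_option autoImplicit false

namespace Pool.Agent.Results.MP_ef0af8_co.GridFlats

open Pool.Agent.Helper57.ZF.Stmt (Pt Aff IsFlat incidences)
open Pool.Agent.Helper6.FL.Stmt (PointwiseIntersecting)
open Pool.Agent.Helper6.FG.Stmt

/-- For every `d` and `k` there is `C` such that, for every finite set `P` of points of `ℝ^(2d)`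
contained in a grid (in some system of linear coordinates) of at most `k |P|` points, and for every
finite pointwise-intersecting family `F` of `d`-flats of `ℝ^(2d)`, the number of incidences is at
most `C (|P|^(2/3) |F|^(2/3) + |P| + |F|)`. -/
theorem result : ∀ (d : ℕ) (k : ℝ), ∃ C : ℝ, ∀ (P : Finset (Pt d)) (F : Finset (Aff d)),
    (∀ Q ∈ F, IsFlat Q) → PointwiseIntersecting F → DenseInGrid k P →
    (incidences P F : ℝ) ≤ C * ((P.card : ℝ) ^ (2 / 3 : ℝ) * (F.card : ℝ) ^ (2 / 3 : ℝ) +
      P.card + F.card) := main_stmt

end Pool.Agent.Results.MP_ef0af8_co.GridFlats
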