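import Pool.Agent.Helper57.ZF.CL
import Pool.Agent.Helper57.ZF.LCown
import Pool.Agent.Helper57.ZF.BLGown
import Pool.Agent.Helper57.ZF.CutB
import Pool.Agent.Helper57.ZF.MainI
import Pool.Agent.Helper57.ZF.Wrap
import Pool.Agent.Helper57.ZF.Stmt
import Pool.Agent.Helper2.ZF.CROWD
import Pool.Agent.Helper3.ZF.RAD
import Pool.Agent.Helper5.ZF.CNT
import Pool.Agent.Helper13.ZF.NETP
import Pool.Agent.Helper20.ZF.PK
import Pool.Agent.Helper31.ZF.MEET
import Pool.Agent.Helper31.ZF.MSEP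
import Pool.Agent.Helper31.ZF.NEAR
import Pool.Agent.Helper34.ZF.INV
import Pool.Agent.Helper34.ZF.LOCXY
import Pool.Agent.Helper37.ZF.ANN
import Pool.Agent.Helper39.ZF.PRANG
import Pool.Agent.Helper40.ZF.LOC
import Pool.Agent.Helper48.ZF.BLK
import Pool.Agent.Helper49.ZF.TRIV
import Pool.Agent.Helper50.ZF.CHART
import Pool.Agent.Helper55.ZF.GL
import Pool.Agent.Helper58.ZF.EXT
import Pool.Agent.Helper59.ZF.DISJ
import Pool.Agent.Helper64.ZF.HOLD
import Pool.Agent.Helper65.ZF.OVL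
import Pool.Agent.Helper67.ZF.CLUS
import Pool.Agent.Helper81.ZF.BL
import Pool.Agent.Helper81.ZF.MINR
import Pool.Agent.Helper88.ZF.PN
import Pool.Agent.Helper89.ZF.DBL
import Pool.Agent.Helper90.ZF.TEL
import Pool.Agent.Helper94.ZF.TRANS

/-!
The Szemerédi–Trotter bound, without any loss and in every dimension, for points and `d`-flats of
`ℝ^(2d)` such that the directions of any two distinct flats through a common point of `P` have
comparable principal angles.
-/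

set_option autoImplicit false

namespace Pool.Agent.Results.MP_ef0af8_co.IsoclinicFlats

open Pool.Agent.Helper57.ZF

theorem pn : G_PN :=
  Pool.Agent.Helper88.ZF.PN (Pool.Agent.Helper20.ZF.PK Pool.Agent.Helper31.ZF.MSEP)
    Pool.Agent.Helper90.ZF.TEL

theorem lc : G_LC := LC_own Pool.Agent.Helper31.ZF.MSEP

theorem cl : G_CL :=
  CL_of Pool.Agent.Helper3.ZF.RAD Pool.Agent.Helper55.ZF.zGL lc
    (Pool.Agent.Helper31.ZF.NEAR lc)
    (Pool.Agent.Helper2.ZF.CROWD lc pn Pool.Agent.Helper31.ZF.MSEP)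
    (Pool.Agent.Helper67.ZF.CLUS pn)
    Pool.Agent.Helper48.ZF.BLK Pool.Agent.Helper65.ZF.OVL Pool.Agent.Helper59.ZF.ISO
    Pool.Agent.Helper59.ZF.DISJ

theorem bl : G_BL :=
  Pool.Agent.Helper81.ZF.BL cl
    (BLG_own Pool.Agent.Helper5.ZF.CNT Pool.Agent.Helper40.ZF.LOC
      Pool.Agent.Helper34.ZF.LOCY Pool.Agent.Helper34.ZF.LOCX)
    Pool.Agent.Helper31.ZF.MEET Pool.Agent.Helper5.ZF.CNT Pool.Agent.Helper89.ZF.DBL

theorem cut : G_CUT :=
  CUT_of Pool.Agent.Helper81.ZF.MINR (Pool.Agent.Helper13.ZF.NETP Pool.Agent.Helper31.ZF.MSEP)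
    Pool.Agent.Helper37.ZF.ANN Pool.Agent.Helper64.ZF.HOLD

theorem maini : G_MAINI :=
  MAINI_of Pool.Agent.Helper89.ZF.DBL cut
    (Pool.Agent.Helper58.ZF.EXT Pool.Agent.Helper49.ZF.TRIV)
    (Pool.Agent.Helper94.ZF.TRANS bl Pool.Agent.Helper34.ZF.INV)

open Pool.Agent.Helper57.ZF.Stmt

/-- For every `d` and `κ` there is `C` such that for every finite `P ⊆ ℝ^(2d)` and every finite
set `F` of `d`-flats, any two distinct members of which through a common point of `P` have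
comparable principal angles (with the factor `κ`), the number of incidences is at most
`C (|P|^(2/3) |F|^(2/3) + |P| + |F|)`. -/
theorem result : ∀ (d : ℕ) (κ : ℝ), ∃ C : ℝ, ∀ (P : Finset (Pt d)) (F : Finset (Aff d)),
    (∀ Q ∈ F, Stmt.IsFlat Q) →
      (∀ Q ∈ F, ∀ Q' ∈ F, Q ≠ Q' → ∀ p ∈ P, p ∈ pts Q → p ∈ pts Q' →
        Stmt.Comparable κ Q Q') →
      (Stmt.incidences P F : ℝ) ≤ C * ((P.card : ℝ) ^ (2 / 3 : ℝ) *
        (F.card : ℝ) ^ (2 / 3 : ℝ) + P.card + F.card) :=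
  main_stmt (WRAP_of maini Pool.Agent.Helper50.ZF.CHART Pool.Agent.Helper39.ZF.PRANG)

end Pool.Agent.Results.MP_ef0af8_co.IsoclinicFlats
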